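import Mathlib
import Pool.Agent.H834Q.Merge

/-!
# Columns which are read in a simple order

A polynomial Ramsey theorem for comparisons of times.
-/

set_option autoImplicit false

namespace Pool.Agent.Y613.CP

open Finset

/-- one pair of sequences of times -/
theorem select_one (f g : ℕ → ℕ) (x : ℕ) (B : Finset ℕ) (hB : 2 * x ^ 2 ≤ #B) :
    ∃ T ⊆ B, x ≤ #T ∧ ((∀ j ∈ T, ∀ h ∈ T, j < h → f j < g h) ∨
      (∀ j ∈ T, ∀ h ∈ T, j < h → g h ≤ f j)) := by
  classical
  rcases Nat.eq_zero_or_pos x with rfl | hx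
  · exact ⟨∅, Finset.empty_subset _, Nat.zero_le _, Or.inl (by simp)⟩
  have hsplit := Finset.card_filter_add_card_filter_not (s := B) (fun j => f j < g j)
  have hxx : (x - 1) * (x - 1) < x ^ 2 := by
    rw [pow_two]
    exact Nat.mul_lt_mul'' (by omega) (by omega)
  by_cases hA : x ^ 2 ≤ #(B.filter fun j => f j < g j)
  · -- the complement is transitive
    rcases Pool.Agent.H834Q.mirsky (R := fun j h => j < h ∧ g h ≤ f j ∧ f j < g j ∧ f h < g h)
      (fun p q h => h.1) (fun p q s h1 h2 => ⟨h1.1.trans h2.1, by omega, h1.2.2.1, h2.2.2.2⟩)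
      (x - 1) (x - 1) (B.filter fun j => f j < g j) (by omega) with h | h
    · obtain ⟨C, h1, h2, h3⟩ := h
      refine ⟨C, h1.trans (Finset.filter_subset _ _), by omega, Or.inr ?_⟩
      intro j hj h hh hjh
      exact (h3 j hj h hh hjh).2.1
    · obtain ⟨C, h1, h2, h3⟩ := h
      refine ⟨C, h1.trans (Finset.filter_subset _ _), by omega, Or.inl ?_⟩
      intro j hj h hh hjh
      have e1 := (Finset.mem_filter.1 (h1 hj)).2
      have e2 := (Finset.mem_filter.1 (h1 hh)).2
      by_contra hc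
      exact h3 j hj h hh ⟨hjh, by omega, e1, e2⟩
  · rcases Pool.Agent.H834Q.mirsky (R := fun j h => j < h ∧ f j < g h ∧ g j ≤ f j ∧ g h ≤ f h)
      (fun p q h => h.1) (fun p q s h1 h2 => ⟨h1.1.trans h2.1, by omega, h1.2.2.1, h2.2.2.2⟩)
      (x - 1) (x - 1) (B.filter fun j => ¬ f j < g j) (by omega) with h | h
    · obtain ⟨C, h1, h2, h3⟩ := h
      refine ⟨C, h1.trans (Finset.filter_subset _ _), by omega, Or.inl ?_⟩
      intro j hj h hh hjh
      exact (h3 j hj h hh hjh).2.1
    · obtain ⟨C, h1, h2, h3⟩ := h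
      refine ⟨C, h1.trans (Finset.filter_subset _ _), by omega, Or.inr ?_⟩
      intro j hj h hh hjh
      have e1 := (Finset.mem_filter.1 (h1 hj)).2
      have e2 := (Finset.mem_filter.1 (h1 hh)).2
      by_contra hc
      exact h3 j hj h hh ⟨hjh, by omega, by omega, by omega⟩

/-- **Selection.** Finitely many pairs of sequences of times. -/
theorem select {ι : Type} (f g : ι → ℕ → ℕ) (I : Finset ι) (x : ℕ) : ∀ B : Finset ℕ,
    (2 * x) ^ 2 ^ #I ≤ #B → ∃ T ⊆ B, x ≤ #T ∧
      ∀ i ∈ I, (∀ j ∈ T, ∀ h ∈ T, j < h → f i j < g i h) ∨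
        (∀ j ∈ T, ∀ h ∈ T, j < h → g i h ≤ f i j) := by
  classical
  rcases Nat.eq_zero_or_pos x with rfl | hx
  · intro B _
    exact ⟨∅, Finset.empty_subset _, Nat.zero_le _, fun i _ => Or.inl (by simp)⟩
  induction I using Finset.induction_on generalizing x with
  | empty =>
    intro B hB
    rw [Finset.card_empty, pow_zero, pow_one] at hB
    exact ⟨B, Subset.rfl, by omega, by simp⟩
  | insert a I ha ih =>
    intro B hB
    rw [Finset.card_insert_of_notMem ha] at hB
    have h1 : (2 * (2 * x ^ 2)) ^ 2 ^ #I ≤ #B := by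
      refine le_trans (le_of_eq ?_) hB
      rw [pow_succ 2 #I, mul_comm (2 ^ #I) 2, pow_mul]
      congr 1
      ring
    obtain ⟨T, hT, hTc, hTI⟩ := ih (2 * x ^ 2) (by positivity) B h1
    obtain ⟨T', hT', hTc', h⟩ := select_one (f a) (g a) x T hTc
    refine ⟨T', hT'.trans hT, hTc', ?_⟩
    intro i hi
    rcases Finset.mem_insert.1 hi with rfl | hi
    · exact h
    · rcases hTI i hi with h2 | h2
      · exact Or.inl fun j hj h hh => h2 j (hT' hj) h (hT' hh)
      · exact Or.inr fun j hj h hh => h2 j (hT' hj) h (hT' hh)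

end Pool.Agent.Y613.CP
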